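import Pool.Agent.H6.FC.Lem

/-!
# Series of the groups of the class `Kp`
-/

set_option autoImplicit false

open scoped Classical
open FI AMc AMt

namespace Pool.Agent.H74.FC

/-- the condition on a factor -/
def Fac (P : ℕ → (S : Type) → [Group S] → Prop) {G : Type} [Group G] (L U : Subgroup G) : Prop :=
  ∃ (Q : Type) (_ : Group Q) (f : U →* Q),
      Function.Surjective f ∧ (∀ x, f x = 1 ↔ (x : G) ∈ L) ∧
      (Group.IsSolvable Q ∨ ∃ (k : ℕ) (S : Type) (_ : Group S) (_ : Finite S),
        P k S ∧ Nonempty (Q ≃* (Fin k → S)))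

/-- a series up to the subgroup `U` -/
def SerTo (P : ℕ → (S : Type) → [Group S] → Prop) {G : Type} [Group G] (U : Subgroup G) : Prop :=
  ∃ (n : ℕ) (N : ℕ → Subgroup G), N 0 = ⊥ ∧ N n = U ∧ (∀ i, (N i).Normal) ∧
    (∀ i, N i ≤ N (i + 1)) ∧ ∀ i < n, Fac P (N i) (N (i + 1))

lemma SerTo.bot (P : ℕ → (S : Type) → [Group S] → Prop) {G : Type} [Group G] :
    SerTo P (⊥ : Subgroup G) :=
  ⟨0, fun _ => ⊥, rfl, rfl, fun _ => inferInstance, fun _ => le_rfl, fun i hi => by omega⟩

lemma SerTo.step {P : ℕ → (S : Type) → [Group S] → Prop} {G : Type} [Group G]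
    {U U' : Subgroup G} (h : SerTo P U) (hle : U ≤ U') (hn : U'.Normal) (hf : Fac P U U') :
    SerTo P U' := by
  obtain ⟨n, N, h0, h1, h2, h3, h4⟩ := h
  refine ⟨n + 1, fun i => if i ≤ n then N i else U', ?_, ?_, ?_, ?_, ?_⟩
  · simp [h0]
  · simp
  · intro i
    by_cases hi : i ≤ n
    · simp only [hi, if_true]
      exact h2 i
    · simp only [hi, if_false]
      exact hn
  · intro i
    by_cases hi : i + 1 ≤ n
    · have hi' : i ≤ n := by omega
      simp only [hi, hi', if_true]
      exact h3 i
    · simp only [hi, if_false]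
      by_cases hi' : i ≤ n
      · have : i = n := by omega
        subst this
        simp only [le_refl, if_true]
        rw [h1]
        exact hle
      · simp only [hi', if_false]
        exact le_rfl
  · intro i hi
    by_cases hi1 : i + 1 ≤ n
    · have hi' : i ≤ n := by omega
      simp only [hi1, hi', if_true]
      exact h4 i (by omega)
    · have : i = n := by omega
      subst this
      have h5 : ¬ (i + 1 ≤ i) := by omega
      simp only [h5, if_false, le_refl, if_true]
      rw [h1]
      exact hf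

/-- a normal subgroup with abelian factor group, all of whose subgroups are solvable or
isomorphic to `A₅` or `PSL(2, p)` -/
def Bpr (A : Type) [Group A] : Prop :=
  ∃ B : Subgroup A, B.Normal ∧ (∀ x y : A, x * y * x⁻¹ * y⁻¹ ∈ B) ∧
    ∀ H : Subgroup A, H ≤ B → Group.IsSolvable H ∨
      ∃ p : ℕ, (p = 5 ∧ Nonempty (H ≃* alternatingGroup (Fin 5))) ∨
        (p.Prime ∧ 7 ≤ p ∧ Nonempty (H ≃* PL p))

lemma Bpr.step {G A : Type} [Group G] [Finite G] [Group A] (e : ℝ) (hA : Bpr A) (U K : Subgroup G)
    (hK : K.Normal) (h : G →* A) (hU : ∀ g, g ∈ U ↔ g ∈ K ∧ h g = 1)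
    (hs : SerTo (PQ e) U) : SerTo (PQ e) K := by
  obtain ⟨B, hB, hcom, hH⟩ := hA
  have hRn : (K ⊓ B.comap h).Normal := by
    have : (B.comap h).Normal := hB.comap h
    infer_instance
  refine (hs.step (U' := K ⊓ B.comap h) ?_ hRn ?_).step inf_le_left hK ?_
  · intro g hg
    have := (hU g).1 hg
    refine ⟨this.1, ?_⟩
    show h g ∈ B
    rw [this.2]
    exact B.one_mem
  · have hle : (h.comp (K ⊓ B.comap h).subtype).range ≤ B := by
      rintro _ ⟨x, rfl⟩
      exact x.2.2
    refine ⟨(h.comp (K ⊓ B.comap h).subtype).range, inferInstance,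
      (h.comp (K ⊓ B.comap h).subtype).rangeRestrict,
      MonoidHom.rangeRestrict_surjective _, ?_, ?_⟩
    · intro x
      rw [hU]
      constructor
      · intro hx
        exact ⟨x.2.1, congrArg Subtype.val hx⟩
      · intro hx
        exact Subtype.ext hx.2
    · rcases hH _ hle with h1 | ⟨p, h1⟩
      · exact Or.inl h1
      · right
        have : Finite (h.comp (K ⊓ B.comap h).subtype).range :=
          Finite.of_surjective _ (MonoidHom.rangeRestrict_surjective _)
        exact ⟨1, (h.comp (K ⊓ B.comap h).subtype).range, inferInstance, this,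
          ⟨p, h1, Or.inl le_rfl⟩, ⟨(MulEquiv.funUnique (Fin 1) _).symm⟩⟩
  · refine ⟨((QuotientGroup.mk' B).comp (h.comp K.subtype)).range, inferInstance,
      ((QuotientGroup.mk' B).comp (h.comp K.subtype)).rangeRestrict,
      MonoidHom.rangeRestrict_surjective _, ?_, Or.inl ?_⟩
    · intro x
      constructor
      · intro hx
        have h1 : ((h x : A) : A ⧸ B) = 1 := congrArg Subtype.val hx
        exact ⟨x.2, (QuotientGroup.eq_one_iff (N := B) (h x)).1 h1⟩
      · intro hx
        apply Subtype.ext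
        exact (QuotientGroup.eq_one_iff (N := B) (h x)).2 hx.2
    · apply Group.isSolvable_of_comm
      rintro ⟨a, x, rfl⟩ ⟨b, y, rfl⟩
      apply Subtype.ext
      show ((h x * h y : A) : A ⧸ B) = ((h y * h x : A) : A ⧸ B)
      rw [QuotientGroup.eq]
      have := hcom (h y)⁻¹ (h x)⁻¹
      rw [inv_inv, inv_inv] at this
      have h2 : (h x * h y)⁻¹ * (h y * h x) = (h y)⁻¹ * (h x)⁻¹ * h y * h x := by group
      rw [h2]
      exact this

lemma Bpr.equiv {A A' : Type} [Group A] [Group A'] (e : A ≃* A') (h : Bpr A') : Bpr A := by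
  obtain ⟨B, hB, hcom, hH⟩ := h
  refine ⟨B.comap e.toMonoidHom, hB.comap _, ?_, ?_⟩
  · intro x y
    show e (x * y * x⁻¹ * y⁻¹) ∈ B
    rw [map_mul, map_mul, map_mul, map_inv, map_inv]
    exact hcom _ _
  · intro H hle
    have e1 : H ≃* H.map e.toMonoidHom := H.equivMapOfInjective e.toMonoidHom e.injective
    rcases hH (H.map e.toMonoidHom) (by
      rintro _ ⟨x, hx, rfl⟩
      exact hle hx) with h1 | ⟨p, ⟨h1, ⟨h2⟩⟩ | ⟨h1, h2, ⟨h3⟩⟩⟩
    · left
      exact Group.isSolvable_of_isSolvable_injective (f := e1.toMonoidHom) e1.injective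
    · exact Or.inr ⟨p, Or.inl ⟨h1, ⟨e1.trans h2⟩⟩⟩
    · exact Or.inr ⟨p, Or.inr ⟨h1, h2, ⟨e1.trans h3⟩⟩⟩

lemma Bpr_S5 (S5V : T_S5V) : Bpr (Equiv.Perm (Fin 5)) := by
  refine ⟨A5, ?_, ?_, ?_⟩
  · unfold A5
    infer_instance
  · intro x y
    unfold A5
    rw [Equiv.Perm.mem_alternatingGroup]
    simp [mul_comm, mul_left_comm]
  · intro H hle
    by_cases hs : Group.IsSolvable H
    · exact Or.inl hs
    · right
      have h1 : A5 ≤ H := by
        by_contra hcon
        exact hs ((S5V H).2 hcon)
      have h2 : H = A5 := le_antisymm hle h1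
      exact ⟨5, Or.inl ⟨rfl, ⟨MulEquiv.subgroupCongr h2⟩⟩⟩

lemma Bpr_PG (CRD : T_CRD) (DK1 : T_DK1) (DK2 : T_DK2) (DK3 : T_DK3) (H60 : T_H60) (PSI : T_PSI)
    (p : ℕ) (hp : p.Prime) (h7 : 7 ≤ p) : Bpr (PG p) := by
  obtain ⟨hfin, _, hidx, hnor⟩ := CRD p hp h7
  refine ⟨PS p, hnor, ?_, ?_⟩
  · intro x y
    have hm := fun a b => Subgroup.mul_mem_iff_of_index_two hidx (a := a) (b := b)
    rw [hm, hm, hm, Subgroup.inv_mem_iff, Subgroup.inv_mem_iff]
    tauto
  · intro T hle
    by_cases hs : Group.IsSolvable T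
    · exact Or.inl hs
    · right
      by_cases hdvd : p ∣ Nat.card T
      · rcases DK1 p hp h7 T hdvd with h1 | h1
        · have h2 : T = PS p := le_antisymm hle h1
          obtain ⟨ψ, _⟩ := PSI p hp
          exact ⟨p, Or.inr ⟨hp, h7, ⟨(MulEquiv.subgroupCongr h2).trans ψ.symm⟩⟩⟩
        · exact absurd h1.1 hs
      · obtain ⟨Ω, hΩ, hact, h1, h2⟩ := DK2 p hp h7 T hdvd
        have hfT : Finite T := inferInstance
        rcases DK3 T Ω h1 h2 with h3 | h3
        · exact absurd h3 hs
        · obtain ⟨f, hf, hfr⟩ := H60 T h3 hs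
          have hc : Nat.card f.range = 60 := by
            rw [← h3]
            exact (Nat.card_congr (MonoidHom.ofInjective hf).toEquiv).symm
          have h4 : A5 = f.range := by
            apply SetLike.coe_injective
            apply Set.eq_of_subset_of_ncard_le (t := (f.range : Set (Equiv.Perm (Fin 5)))) hfr
            have e1 : (f.range : Set (Equiv.Perm (Fin 5))).ncard = 60 := by
              rw [← hc]
              rfl
            have e2 : ((A5 : Subgroup (Equiv.Perm (Fin 5))) : Set (Equiv.Perm (Fin 5))).ncard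
                = 60 := by
              have : Nat.card A5 = 60 := by
                unfold A5
                rw [Nat.card_eq_fintype_card]
                have := two_mul_card_alternatingGroup (α := Fin 5)
                rw [Fintype.card_perm, Fintype.card_fin] at this
                have h5 : Nat.factorial 5 = 120 := rfl
                omega
              rw [← this]
              rfl
            rw [e1, e2]
          exact ⟨5, Or.inl ⟨rfl, ⟨(MonoidHom.ofInjective hf).trans
            (MulEquiv.subgroupCongr h4.symm)⟩⟩⟩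

theorem pf_KPS (CRD : T_CRD) (DK1 : T_DK1) (DK2 : T_DK2) (DK3 : T_DK3) (H60 : T_H60)
    (PSI : T_PSI) (S5V : T_S5V) (_S5S : T_S5S) (_SOL : T_SOL) : T_KPS := by
  intro e G _ _ hG
  obtain ⟨n, A, hA, hAi, f, hf⟩ := hG
  have hB : ∀ i, Bpr (A i) := by
    intro i
    rcases hAi i with h1 | ⟨p, hp, h7, h1⟩
    · obtain ⟨h1⟩ := h1
      exact (Bpr_S5 S5V).equiv h1
    · obtain ⟨h1⟩ := h1
      exact (Bpr_PG CRD DK1 DK2 DK3 H60 PSI p hp h7).equiv h1
  let K : ℕ → Subgroup G := fun j =>
    { carrier := {g | ∀ i : Fin n, (i : ℕ) < j → f g i = 1}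
      mul_mem' := by
        intro a b ha hb i hi
        rw [map_mul, Pi.mul_apply, ha i hi, hb i hi, one_mul]
      one_mem' := by
        intro i _
        rw [map_one, Pi.one_apply]
      inv_mem' := by
        intro a ha i hi
        rw [map_inv, Pi.inv_apply, ha i hi, inv_one] }
  have hKm : ∀ j g, g ∈ K j ↔ ∀ i : Fin n, (i : ℕ) < j → f g i = 1 := fun j g => Iff.rfl
  have hKn : ∀ j, (K j).Normal := by
    intro j
    constructor
    intro g hg x
    rw [hKm] at hg ⊢
    intro i hi
    rw [map_mul, map_mul, map_inv, Pi.mul_apply, Pi.mul_apply, Pi.inv_apply, hg i hi]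
    simp
  have key : ∀ t, t ≤ n → SerTo (PQ e) (K (n - t)) := by
    intro t
    induction t with
    | zero =>
      intro _
      rw [Nat.sub_zero]
      have hk : K n = f.ker := by
        ext g
        rw [hKm, MonoidHom.mem_ker]
        constructor
        · intro h
          funext i
          exact h i i.2
        · intro h i _
          rw [h]
          rfl
      refine (SerTo.bot (PQ e)).step bot_le (hKn n) ?_
      rw [hk]
      refine ⟨f.ker, inferInstance, MonoidHom.id _, Function.surjective_id, ?_, Or.inl hf⟩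
      intro x
      rw [MonoidHom.id_apply, Subgroup.mem_bot]
      exact (OneMemClass.coe_eq_one).symm
    | succ t ih =>
      intro ht
      have h1 := ih (by omega)
      have h2 : n - t = (n - (t + 1)) + 1 := by omega
      rw [h2] at h1
      generalize hj : n - (t + 1) = j at h1
      have hjn : j < n := by omega
      refine (hB ⟨j, hjn⟩).step e (K (j + 1)) (K j) (hKn j)
        ((Pi.evalMonoidHom A ⟨j, hjn⟩).comp f) ?_ h1
      intro g
      rw [hKm, hKm]
      constructor
      · intro h
        exact ⟨fun i hi => h i (by omega), h ⟨j, hjn⟩ (Nat.lt_succ_self j)⟩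
      · rintro ⟨h3, h4⟩ i hi
        rcases Nat.lt_or_ge i j with h5 | h5
        · exact h3 i h5
        · have : i = ⟨j, hjn⟩ := Fin.ext (by simp only; omega)
          rw [this]
          exact h4
  have h0 := key n le_rfl
  rw [Nat.sub_self] at h0
  have hK0 : K 0 = ⊤ := by
    ext g
    rw [hKm]
    simp
  rw [hK0] at h0
  exact h0

end Pool.Agent.H74.FC
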